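import Pool.Agent.MP_ee8c61_ag.N3.Kit
import Pool.Agent.MP_ee8c61_ag.M3.Defs

/-!
The zeta function of a model over a base, the functional equation, frames and chambers; the
statements of the blocks.
-/

namespace Pool.Agent.MP_ee8c61_ag.N3

open H59 hiding pd
open M3 M3RESID Finset
open Pool.Agent.MP_96693b_ag.RS (Loc LocOf)
open M3B1 (pd)

noncomputable section

variable {N : ℕ}

/-! ### The zeta function of a model -/

namespace Mod

variable (M : Mod N)

/-- The closed points. -/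
def pts : Set (Loc (KK N)) := {P | ∃ b, LocOf (M.S.A b) P}

/-- The point lies on the divisor `j`. -/
def On (P : Loc (KK N)) (j : M.J) : Prop := ∀ g ∈ P.O, g ∈ (M.v j).F 0

/-- The points that lie exactly on the divisors in `I`. -/
def str (I : Finset M.J) : Set (Loc (KK N)) := {P ∈ M.pts | ∀ j, M.On P j ↔ j ∈ I}

/-- The topological zeta function. -/
def zeta (χ : H36.Chi) : RatFunc ℂ :=
  ∑ I : Finset M.J, (chiP χ (M.str I) : RatFunc ℂ) *
    ∏ i ∈ I, 1 / ((M.a i : RatFunc ℂ) * RatFunc.X + (M.k i : RatFunc ℂ) + 1)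

/-- The log canonical divisor. -/
def nu : M.J → ℚ := fun j => M.k j + 1

/-- The exponents at `s = -la`. -/
def ex (la : ℚ) : M.J → ℚ := fun j => M.k j + 1 - la * M.a j

end Mod

theorem co_z (l : Fin N) : (co N).z l = x0 N l := rfl

theorem x0_eq : x0 N = M3.xx N := rfl

variable [Base]

/-! ### The functional equation -/

/-- The divergence of the form `f ^ (-la) d x`. -/
def dvf (f : Po N) (la : ℚ) : Dv (KK N) := (co N).dv.tw (ip N f) (-(la : ℂ))

open MvPolynomial in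
/-- The equation `b = f Q + (d + s dlog f + ∑ ξ i d x i) β`. -/
structure BSd (f : Po N) (b : Polynomial ℂ) (β : Fin N → PX N (KK N)) (Q : PX N (KK N)) :
    Prop where
  pol : ∃ u : ℕ, ∀ l e, ip N f ^ u * coeff e (β l) ∈ (ip N).range
  reg : ∀ e, coeff e Q ∈ (ip N).range
  eq : Polynomial.aeval (X none : PX N (KK N)) b = C (ip N f) * Q +
    ∑ l, (dpol _ (pd N l) (β l) + (∑ i, X (some i) * C (pd N l (xx N i)) +
      X none * C ((ip N f)⁻¹ * pd N l (ip N f))) * β l)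

/-- The standing hypothesis: `-la` is not a root. -/
structure Hyp (f : Po N) (la : ℚ) (b : Polynomial ℂ) (β : Fin N → PX N (KK N))
    (Q : PX N (KK N)) : Prop where
  ne : f ≠ 0
  bs : BSd f b β Q
  nr : b.eval (-(la : ℂ)) ≠ 0

/-! ### Frames -/

/-- The residue of the primitive along the place `P` has a frame. -/
def Star {k : Type} [Field k] [Algebra ℂ k] (P : Pl (KK N) k) (f : Po N) (la : ℚ)
    (b : Polynomial ℂ) (β : Fin N → PX N (KK N)) : Prop :=
  ∃ (e : Dv k) (v : VF k), P.RsD (dvf f la) e ∧ P.Res (dvf f la) (bf la β) v ∧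
    STAR e v (b.eval (-(la : ℂ))) (Set.range fun l => P.π (xx N l))

/-! ### Chambers -/

/-- A cone `U` of divisors on `M` whose mobile parts are given by the linear map `P` to a model
`W`; the segment `nu + s h` enters `U` at time `t`. -/
structure Ch (f : Po N) (M : Mod N) where
  W : Mod N
  D : Dom W M
  U : Set (M.J → ℚ)
  P : (M.J → ℚ) →ₗ[ℚ] (W.J → ℚ)
  h : M.J → ℚ
  t : ℚ
  ok : W.OK f
  add : ∀ d ∈ U, ∀ d' ∈ U, d + d' ∈ U
  smul : ∀ d ∈ U, ∀ c : ℚ, 0 < c → c • d ∈ U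
  free : ∀ d ∈ U, ∃ (m : ℕ) (c : M.J → ℤ) (c' : W.J → ℤ), 0 < m ∧ M.q c = m • d ∧
    W.q c' = m • P d ∧ W.Free c' ∧ ∀ n : ℕ, M.H (n • c) = W.H (n • c')
  amp : M.AmpQ h
  t0 : 0 ≤ t
  mem : M.nu + t • h ∈ U
  inn : ∃ s : ℚ, t < s ∧ Inn U (M.nu + s • h)

namespace Ch

variable {f : Po N} {M : Mod N} (C : Ch f M)

/-- The divisor `j` is not contracted in the chamber. -/
def Alive (j : M.J) : Prop := ∀ d, C.P d (C.D.e j) = d j

/-- Just before time `t` all sections vanish along the divisor `o`. -/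
def Dead (o : M.J) : Prop :=
  ∃ s₀ : ℚ, s₀ < C.t ∧ ∀ s : ℚ, s₀ < s → s < C.t → ∀ (m : ℕ) (c : M.J → ℤ), 0 < m →
    M.q c = m • (M.nu + s • C.h) → ∀ g ∈ M.H c, g ∈ (M.v o).F (1 - c o)

/-- The segment enters through the interior of the facet `w = 0`. -/
structure Facet (w : (M.J → ℚ) →ₗ[ℚ] ℚ) : Prop where
  pos : 0 < w C.h
  zero : w (M.nu + C.t • C.h) = 0
  aa : w (M.q M.aa) = 0
  mem : ∀ u, w u = 0 → ∃ δ : ℚ, 0 < δ ∧ M.nu + C.t • C.h + δ • u ∈ C.U

/-- The divisor `o` dies on a wall. -/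
def Death (o : M.J) : Prop := 0 < C.t ∧ (∃ w, C.Facet w) ∧ C.Dead o

end Ch

/-! ### The statements of the blocks -/

/-- Every divisor dies on a wall or survives. -/
def SCH : Prop := ∀ (f : Po 3) (M : Mod 3), f ≠ 0 → M.OK f → ∀ o : M.J,
  ∃ C : Ch f M, C.Alive o ∧ (C.Death o ∨ C.t = 0)

/-- The frame of a divisor that dies. -/
def SDEATH : Prop := ∀ (f : Po 3) (la : ℚ) (b : Polynomial ℂ) (β : Fin 3 → PX 3 (KK 3))
  (Q : PX 3 (KK 3)) (M : Mod 3) (o : M.J) (C : Ch f M), Hyp f la b β Q → M.OK f →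
  M.ex la o = 0 → C.Alive o → C.Death o → Star (M.v o).pl f la b β

/-- The frame of a divisor that survives. -/
def SLAST : Prop := ∀ (f : Po 3) (la : ℚ) (b : Polynomial ℂ) (β : Fin 3 → PX 3 (KK 3))
  (Q : PX 3 (KK 3)) (M : Mod 3) (o : M.J) (C : Ch f M), Hyp f la b β Q → M.OK f →
  M.ex la o = 0 → C.Alive o → C.t = 0 → C.Dead o → Star (M.v o).pl f la b β

/-- A divisor that is alive beyond the log canonical divisor gives a root. -/
def SR1 : Prop := ∀ (N : ℕ) (f : Po N) (la : ℚ) (b : Polynomial ℂ) (β : Fin N → PX N (KK N))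
  (Q : PX N (KK N)) (M : Mod N) (o : M.J)
  (h : M.J → ℚ) (s : ℚ) (m : ℕ) (c : M.J → ℤ), f ≠ 0 → BSd f b β Q → M.OK f →
  M.ex la o = 0 → M.AmpQ h → s < 0 → 0 < m → M.q c = m • (M.nu + s • h) →
  ∀ g ∈ M.H c, g ∉ (M.v o).F (1 - c o) → b.eval (-(la : ℂ)) = 0

/-- Frames kill the pole. -/
def SBOOK : Prop := ∀ (f : Po 3) (la : ℚ) (b : Polynomial ℂ) (β : Fin 3 → PX 3 (KK 3))
  (Q : PX 3 (KK 3)) (M : Mod 3) (χ : H36.Chi), Hyp f la b β Q → M.OK f → IsEu χ →
  (∀ o, M.ex la o = 0 → Star (M.v o).pl f la b β) → ¬(M.zeta χ).denom.IsRoot (-(la : ℂ))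

/-- The theorem over a base. -/
def MainB : Prop := ∀ (f : Po 3) (b : Polynomial ℂ) (β : Fin 3 → PX 3 (KK 3)) (Q : PX 3 (KK 3))
  (M : Mod 3) (χ : H36.Chi), BSd f b β Q → M.OK f → IsEu χ →
  ∀ s : ℂ, (M.zeta χ).denom.IsRoot s → b.IsRoot s

end

end Pool.Agent.MP_ee8c61_ag.N3
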