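import Pool.Agent.MP_ee8c61_ag.N3.FKit
import Pool.Agent.MP_ee8c61_ag.N3.Frame
import Pool.Agent.MP_ee8c61_ag.N3RESID.RAV
import Pool.Agent.MP_ee8c61_ag.N3K.Spec

/-! Double curves as valuations of the residue field; the curves that are not complete. -/

namespace Pool.Agent.MP_ee8c61_ag.N3

open Pool.Agent.MP_ee8c61_ag.M3

set_option linter.unusedSectionVars false

variable [Base]

open M3RESID M3E Finset

namespace RIT

variable {n : ℕ} {f : Po (n + 1)} {W : N3.Mod (n + 1)} {k : Type} [Field k] [Algebra ℂ k]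
  {P : Pl (KK (n + 1)) k} {o i : W.J}

/-- A double curve is a valuation of the residue field. -/
theorem exists_dv (hW : W.OK f) (B : Bas1 W) (hC : M3E.Cv W) (ho : P.o = W.v o)
    {V : Vl (n + 1)} (hV : W.IsCv o i V) :
    ∃ Γ : DV k, V = lift P Γ ∧ ∃ π, Γ.v π = 1 := by
  classical
  obtain ⟨b, hb⟩ := hW.cov V hV.2.1
  have hle : V ≤ P.o.O := ho ▸ hV.2.2.1
  have η0 := W.η_ne b i
  have η1 := hb _ (B.η_mem b i)
  have η2 := hV.2.2.2.1 b hb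
  have η3 : Un P.o.O (W.η b i) := by
    rw [ho]
    by_contra e
    exact hV.1 ((B.thru_v o i).1 ((B.thru_iff b _ i fun g hg => hV.2.2.1 (hb g hg)).2 e))
  have sm : ∀ g ∈ P.o.F 1, g ∈ V ∧ ¬Un V g := fun g hg => B.small V o hV.2.2.1 g (ho ▸ hg)
  have ex : ∀ y : k, ∃ e : ℤ, (y = 0 → e = 0) ∧
      (y ≠ 0 → ∀ g ∈ P.o.F 0, P.π g = y → Un V (g / W.η b i ^ e)) := fun y => by
    by_cases h0 : y = 0
    · exact ⟨0, fun _ => rfl, fun h => absurd h0 h⟩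
    obtain ⟨g, hg, rfl⟩ := P.surj y
    have hu := P.o.un_O.1 ((pi_ne_iff hg).1 h0)
    obtain ⟨e, he, -⟩ := hC.un o i V b hV hb g hu.1 (ho ▸ hu.2)
    refine ⟨e, fun h => absurd h h0, fun _ g' hg' h => ?_⟩
    have h1 := sm _ (F_mul0' (Pl.π_eq hg hg' h) (η3.zpow e).2.2)
    have := he.add h1.1 h1.2
    rwa [div_eq_mul_inv, ← add_mul, add_sub_cancel, ← div_eq_mul_inv] at this
  choose v v0 hv using ex
  have le : ∀ g (e e' : ℤ), g / W.η b i ^ e ∈ V → Un V (g / W.η b i ^ e') → e ≤ e' := fun g e e' a c => by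
    have h1 := mul_mem a c.2.2
    have g0 : g ≠ 0 := fun h => c.1 (by rw [h, zero_div])
    rw [show g / W.η b i ^ e * (g / W.η b i ^ e')⁻¹ = W.η b i ^ (e' - e) by
      rw [zpow_sub₀ η0]
      field_simp, zpow_mem_iff η0 η1 η2] at h1
    omega
  have mono : ∀ g (e e' : ℤ), e ≤ e' → g / W.η b i ^ e' ∈ V → g / W.η b i ^ e ∈ V := fun g e e' a c => by
    have h1 := mul_mem c ((zpow_mem_iff η0 η1 η2 (e' - e)).2 (by omega))
    rwa [zpow_sub₀ η0, div_mul_div_cancel₀ (zpow_ne_zero _ η0)] at h1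
  have uq : ∀ g ∈ P.o.F 0, P.π g ≠ 0 → ∀ e, Un V (g / W.η b i ^ e) → v (P.π g) = e :=
    fun g hg h0 e he => le_antisymm (le g _ _ (hv _ h0 g hg rfl).2.1 he)
      (le g _ _ he.2.1 (hv _ h0 g hg rfl))
  refine ⟨⟨v, v0 0 rfl, fun y y' h h' => ?_, fun y y' h h' h'' => ?_⟩, ?_, P.π (W.η b i), ?_⟩
  · obtain ⟨g, hg, rfl⟩ := P.surj y
    obtain ⟨g', hg', rfl⟩ := P.surj y'
    rw [← P.mul _ hg _ hg']
    refine uq _ (F_mul0 hg hg') (P.mul _ hg _ hg' ▸ mul_ne_zero h h') _ ?_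
    rw [zpow_add₀ η0, ← div_mul_div_comm]
    exact (hv _ h g hg rfl).mul (hv _ h' g' hg' rfl)
  · obtain ⟨g, hg, rfl⟩ := P.surj y
    obtain ⟨g', hg', rfl⟩ := P.surj y'
    refine le (g + g') _ _ ?_ (hv _ h'' _ (add_mem hg hg') (P.add _ hg _ hg'))
    rw [add_div]
    exact add_mem (mono _ _ _ (min_le_left _ _) (hv _ h g hg rfl).2.1)
      (mono _ _ _ (min_le_right _ _) (hv _ h' g' hg' rfl).2.1)
  · ext g
    refine ⟨fun hg => ⟨hle hg, ?_⟩, fun ⟨h1, h2⟩ => ?_⟩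
    · by_cases h0 : P.π g = 0
      · exact Or.inl h0
      · exact Or.inr (le g 0 _ (by simpa using hg) (hv _ h0 g (hle hg) rfl))
    · by_cases h0 : P.π g = 0
      · exact (sm g ((P.ker g h1).1 h0)).1
      · simpa using mono g 0 _ (h2.resolve_left h0) (hv _ h0 g h1 rfl).2.1
  · exact uq _ η3.2.1 ((pi_ne_iff η3.2.1).2 η3) 1 (by
      rw [zpow_one, div_self η0]
      exact un_one)

variable {Γ : DV k}

theorem v_eta (hC : M3E.Cv W) (h : Lv W o P Γ) (hΓ : ∃ π, Γ.v π = 1)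
    (hV : W.IsCv o i (lift P Γ)) {b : W.ι} (hb : W.In b (lift P Γ)) :
    Γ.v (P.π (W.η b i)) = 1 := by
  obtain ⟨y, hy⟩ := hΓ
  obtain ⟨g, hg, rfl⟩ := P.surj y
  have h0 : P.π g ≠ 0 := fun e => by simp [e, Γ.zero] at hy
  have hu := P.o.un_O.1 ((pi_ne_iff hg).1 h0)
  obtain ⟨e, he, -⟩ := hC.un o i _ b hV hb g hu.1 (h.eq ▸ hu.2)
  have h1 := P.o.un_O.1 (h.η_un hb hV.1)
  have h2 := (un_lift.1 he).2.2
  have h3 := P.o.un_O.1 ((h.η_un hb hV.1).zpow e)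
  rw [Pl.π_div hg h3.1 h3.2, Pl.π_zpow h1.1 h1.2,
    Γ.div h0 (zpow_ne_zero _ (Pl.π_ne h1.1 h1.2)), Γ.zpow, hy] at h2
  exact Int.eq_one_of_mul_eq_one_left (h.tr_eq hb i ▸ h.tr_nonneg i) (sub_eq_zero.1 h2).symm

/-- The traces on a double curve. -/
theorem tr_cv (hC : M3E.Cv W) (h : Lv W o P Γ) (hΓ : ∃ π, Γ.v π = 1)
    (hV : W.IsCv o i (lift P Γ)) (l : W.J) : W.tr P Γ l = if l = i then 1 else 0 := by
  obtain ⟨b, hb⟩ := h.cov
  split_ifs with e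
  · rw [e, h.tr_eq hb, v_eta hC h hΓ hV hb]
  · by_cases e' : l = o
    · rw [e', h.tr_o]
    · exact (h.tr_zero_iff e').2 fun t => (hC.thru o i _ l hV t).elim e' e

/-- The exponent on a double curve. -/
theorem exp_cv (hW : W.OK f) (hC : M3E.Cv W) (h : Lv W o P Γ) (hΓ : ∃ π, Γ.v π = 1)
    (hV : W.IsCv o i (lift P Γ)) {la : ℚ} (h0 : W.ex la o = 0) {e : Dv k}
    (he : P.RsD (dvf f la) e) : Exp e Γ (W.ex la i) := by
  obtain ⟨b, hb⟩ := h.cov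
  obtain ⟨-, a1, ⟨l0, a2⟩, -⟩ := h.bas.in_v b _ o hb h.thru
  obtain ⟨-, -, ⟨l1, a3⟩, -⟩ := h.bas.in_v b _ i hb hV.2.2.2.1
  obtain ⟨l, rfl⟩ := Fin.exists_succAbove_eq (x := l1) (y := l0) fun e =>
    hV.1 (W.S.lab_inj b i o l0 (e ▸ a3) a2)
  obtain ⟨C', hC'⟩ := exists_rch hW a2 a1 h.eq
  have hz := lz_lcA (W.S.A b) (lift P Γ)
  have hO := lcA_le hb
  have hd : (cht hW b).Dat (lcA (W.S.A b) (lift P Γ)) P.o l0 :=
    (h.eq ▸ cht_dat hW a2 a1 : (cht hW b).Dat _ P.o l0).lz hz fun g hg => (hO g hg).1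
  obtain ⟨O', hO'⟩ := Pl.exists_RsO hd.le
  have e1 : C'.z l = P.π (W.η b i) := (hC' l).trans (congrArg P.π (W.S.η_some b i _ a3).symm)
  have h1 := v_eta hC h hΓ hV hb
  have hD : C'.Dat O' Γ l := by
    refine Co.dat_of (hC'.st hd hO' ((cht_st hW b).lz hz)) (e1 ▸ h1) (fun y => ?_)
      (fun y hy => ?_) fun y hy h2 => ?_
    · obtain ⟨s, hs, t, ht, h2, rfl⟩ := Pl.frac (P := P) (h.eq ▸ cht_lz hW a2 a1) y
      exact ⟨_, hO'.mem (hz.le hs), h2, by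
        rw [mul_div_cancel₀ _ h2]
        exact hO'.mem (hz.le ht)⟩
    · obtain ⟨g, hg, rfl⟩ := (hO' y).1 hy
      exact (hO g hg).2
    · obtain ⟨g, hg, rfl⟩ := (hO' y).1 hy
      obtain ⟨s, s1, s2, s3⟩ := id hg
      obtain ⟨t, t1, p, p1, p', p2, t2, e⟩ := hV.2.2.2.2 b hb _ s3
        (not_un_mul s2.2.1 (hO g hg) fun u => by
          obtain ⟨-, u1, u2⟩ := un_lift.1 u
          have := h2.resolve_left u1
          omega)
      have u := t2.mul s2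
      have u' := P.o.un_O.1 (u.mono lift_le)
      refine (hO' _).2 ⟨p' / (t * s), ⟨_, mul_mem t1 s1, u, by rwa [mul_div_cancel₀ _ u.1]⟩, ?_⟩
      have e2 := congrArg P.π e
      rw [← mul_assoc, P.mul _ u.2.1.1 _ (hO g hg).1,
        P.add _ (F_mul0 (hb p p1).1 (h.η_F hb o)) _ (F_mul0 (hb p' p2).1 (h.η_F hb i)),
        P.mul _ (hb p p1).1 _ (h.η_F hb o), P.mul _ (hb p' p2).1 _ (h.η_F hb i), h.η_o hb,
        mul_zero, zero_add, ← e1] at e2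
      rw [Pl.π_div (hb p' p2).1 u'.1 u'.2, div_eq_div_iff (Pl.π_ne u'.1 u'.2) (C'.ne l), ← e2,
        mul_comm]
  have := hD.exp (hC'.Ad hd hO' (h.eq ▸ exp_v0 hW h0) he ((cht_ad hW b la).mono hz.le))
  rwa [cex_some a3] at this

theorem eps_eq {e : Dv k} {a : ℚ} (hΓ : ∃ π, Γ.v π = 1) (h : Exp e Γ a) :
    (Classical.epsilon fun a : ℚ => Exp e Γ a) = a :=
  Rat.cast_injective (α := ℂ)
    ((Classical.epsilon_spec (p := fun a : ℚ => Exp e Γ a) ⟨a, h⟩).uniq h hΓ.choose_spec)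

variable {f : Po 3} {M : N3.Mod 3} (C : Ch f M)

theorem P_sum (K : M3K.Ka C) {o : M.J} {d : M.J → ℚ} (h : d o = 0) (i : C.W.J) :
    C.P d i = ∑ j : C.Nb o, d j.1 * C.P (M.q (M.e j.1)) i := by
  classical
  rw [K.congr d (∑ j : C.Nb o, d j.1 • M.q (M.e j.1)) fun l hl => ?_, map_sum, Finset.sum_apply]
  · simp only [map_smul, Pi.smul_apply, smul_eq_mul]
  simp only [Finset.sum_apply, Pi.smul_apply, Mod.q_apply, Mod.e_apply, smul_eq_mul]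
  by_cases e : l = o
  · rw [e, h]
    exact (sum_eq_zero fun j _ => by rw [if_neg j.2.1.symm]; simp).symm
  · refine ((Fintype.sum_eq_single (α := C.Nb o) ⟨l, e, hl⟩ fun j hj => ?_).trans ?_).symm
    · rw [if_neg fun e' => hj (Subtype.ext e'.symm)]
      simp
    · simp

theorem ex_W (K : M3K.Ka C) (la : ℚ) : C.W.ex la = M3K.dl C + C.P (M.ex la) := by
  have : M.ex la = M.nu - la • M.q M.aa := funext fun j => by simp [Mod.ex, Mod.nu, Mod.aa]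
  rw [this, map_sub, map_smul, K.aa, M3K.dl]
  funext j
  simp [Mod.ex, Mod.nu, Mod.aa]

end RIT

open RIT

theorem it1_of (E : EOut) (hT : M3K.STh) (hA : M3K.SKa) (hB : M3K.SKb) (hU : M3K.SUp) : IT1 := by
  intro f la b β Q M C o X Y h hX _ Γ j l hΓ hc hn
  have K := hA 3 f M C h.ok
  have K' := hB 3 f M C h.ok
  have hC := E.cv 3 f C.W C.ok
  have hL : Lv C.W (C.D.e o) (M.v o).pl Γ :=
    lv_of C.ok (E.bas 3 f C.W C.ok).toBas1 (C.D.v o).symm hΓ.bas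
  have hx := (nc_iff (P := (M.v o).pl) (hL.ov (xp 3 l)).1).1 hn
  obtain ⟨i, hi⟩ : ∃ i, 0 < C.W.tr (M.v o).pl Γ i := by
    by_contra! h0
    have h1 : (∑ i, C.P (M.q (M.e j.1)) i * C.W.tr (M.v o).pl Γ i : ℚ) = 1 := hc.2.1
    rw [sum_eq_zero fun i _ => by rw [le_antisymm (h0 i) (hL.tr_nonneg i)]; simp] at h1
    exact zero_ne_one h1
  obtain ⟨h1, h2⟩ := (hL.tr_pos_iff i).1 hi
  obtain ⟨a, ha⟩ := hL.cov
  have hV := hU f C.W C.ok _ i _ a _ h1 ha hL.le h2 (Lc.of_mem (C.ok.xx_mem a l)) hx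
  have hβ : ∀ j' : C.Nb o, (C.sd la b o X Y).β j' Γ = C.P (M.q (M.e j'.1)) i := fun j' => by
    show (∑ i, C.P (M.q (M.e j'.1)) i * C.W.tr (M.v o).pl Γ i : ℚ) = _
    simp [tr_cv hC hL hΓ.sur hV]
  have h3 : (C.sd la b o X Y).ex Γ = C.W.ex la i :=
    eps_eq hΓ.sur (exp_cv C.ok hC hL hΓ.sur hV (by
      rw [ex_W C K, Pi.add_apply, (K'.alive o).1 h.alive, h.alive, h.zero, add_zero]) hX.rd)
  have h4 : (C.sd la b o X Y).α Γ = C.P (M.ex la) i := by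
    rw [P_sum C K h.zero]
    exact sum_congr rfl fun j' _ => by rw [hβ]; rfl
  have h5 := hc.1
  rw [h3, h4, ex_W C K, Pi.add_apply, add_eq_right] at h5
  have h6 := hc.2.1
  rw [hβ, (K'.tame i h5).2, ← C.D.q_pb, Mod.q_apply, C.D.pb_e, Int.cast_natCast] at h6
  exact ⟨_, hL.ov, (E.bas 3 f M h.ok).thru_le _ o hL.ov lift_le,
    (hT 3 f C.W M C.D C.ok h.ok _ _ hL.ov).2 ⟨i, h2, Nat.cast_pos.1 (h6 ▸ one_pos)⟩, l, hx⟩

theorem it2_of (E : EOut) : IT2 := by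
  intro f la b β Q M C o X Y h hX _ j hj h0 ⟨V, h1, h2, h3, l, h4⟩
  have B := E.bas 3 f M h.ok
  have hC := E.cv 3 f M h.ok
  obtain ⟨V', hV, h5⟩ := E.ce 3 f M h.ok o j V h1 h2 h3 hj
  obtain ⟨Γ, rfl, hΓ⟩ := exists_dv (P := (M.v o).pl) h.ok B.toBas1 hC rfl hV
  obtain ⟨a, ha⟩ := h.ok.cov V h1
  have hn : NC Γ ((M.v o).pl.π (xx 3 l)) := (nc_iff (hV.2.1 (xp 3 l)).1).2 fun c =>
    (h5 a ha).2 _ (sub_mem (h.ok.xx_mem a l) (Subalgebra.algebraMap_mem _ c)) (h4 c)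
  refine ⟨Γ, l, ⟨hΓ, fun l => (hV.2.1 (xp 3 l)).2, _, hn⟩, hn, h0 ▸ eps_eq hΓ ?_⟩
  exact exp_cv h.ok hC ⟨B.toBas1, rfl, a, (h5 a ha).1⟩ hΓ hV h.zero hX.rd

end Pool.Agent.MP_ee8c61_ag.N3
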