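import Pool.Agent.MP_ee8c61_ag.N3.FDefs
import Pool.Agent.MP_ee8c61_ag.N3E.Spec
import Pool.Agent.MP_ee8c61_ag.M3.FKit

/-! The dictionary between valuations of the residue field and refinements of the divisor. -/

namespace Pool.Agent.MP_ee8c61_ag.N3

open Pool.Agent.MP_ee8c61_ag.M3

set_option linter.unusedSectionVars false

variable [Base]

open M3RESID M3E Finset

variable {N : ℕ} {k : Type} [Field k] [Algebra ℂ k] {P : Pl (KK N) k} {Γ : DV k}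

theorem ov_iff' {V : Vl N} (hc : ∀ c : ℂ, algebraMap ℂ (KK N) c ∈ V) :
    Ov V ↔ ∀ l, xx N l ∈ V := ov_iff.trans (and_iff_right hc)

theorem ov_lift (hP : Ov P.o.O) : Ov (lift P Γ) ↔ ∀ l, P.π (xx N l) ∈ Γ.F 0 :=
  (ov_iff' cst_lift).trans ⟨fun h l => (h l).2, fun h l => ⟨hP (xp N l), h l⟩⟩

/-- The place `P` belongs to the divisor `o`, and `Γ` lies over the base. -/
structure Lv (W : Mod N) (o : W.J) (P : Pl (KK N) k) (Γ : DV k) : Prop where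
  bas : Bas1 W
  eq : P.o = W.v o
  cov : ∃ b, W.In b (lift P Γ)

namespace Lv

variable {W : Mod N} {o : W.J} (h : Lv W o P Γ) {b : W.ι} {c : W.J → ℤ} {g : KK N}
include h

theorem le : lift P Γ ≤ (W.v o).O := h.eq ▸ lift_le

theorem ov : Ov (lift P Γ) := h.cov.elim fun b hb => h.bas.ov b _ hb

theorem thru : W.Thru (lift P Γ) o := h.bas.thru_le _ o h.ov h.le

theorem in_o (hb : W.In b (lift P Γ)) : W.In b (W.v o).O := fun g hg => h.le (hb g hg)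

theorem η_o (hb : W.In b (lift P Γ)) : P.π (W.η b o) = 0 := by
  refine P.π_F1 (Or.inr ?_)
  have := h.bas.v_mon b o ((1 : ℤ) • W.e o) (h.in_o hb)
  rw [h.bas.mon_e, zpow_one, one_smul, W.e_apply, if_pos rfl] at this
  rw [h.eq, this]

theorem η_un (hb : W.In b (lift P Γ)) {i : W.J} (hi : i ≠ o) : Un P.o.O (W.η b i) := by
  rw [h.eq]
  by_contra e
  exact hi ((h.bas.thru_v o i).1 ((h.bas.thru_iff b _ i (h.in_o hb)).2 e))

theorem η_F (hb : W.In b (lift P Γ)) (i : W.J) : W.η b i ∈ P.o.F 0 := (hb _ (h.bas.η_mem b i)).1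

theorem tr_eq (hb : W.In b (lift P Γ)) (i : W.J) : W.tr P Γ i = Γ.v (P.π (W.η b i)) := by
  rw [Mod.tr, dif_pos h.cov]
  have ha := h.cov.choose_spec
  by_cases hi : i = o
  · rw [hi, h.η_o ha, h.η_o hb]
  have h1 := h.η_un hb hi
  obtain ⟨-, -, h2⟩ := un_lift.1 (h.bas.un_η _ b _ i ha hb)
  rw [Pl.π_div (h.η_F ha i) h1.1 (P.o.un_O.1 h1).2, Γ.div ((pi_ne_iff (h.η_F ha i)).2
    (h.η_un ha hi)) ((pi_ne_iff h1.2.1).2 h1)] at h2
  omega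

theorem tr_o : W.tr P Γ o = 0 := h.cov.elim fun b hb => by rw [h.tr_eq hb, h.η_o hb, Γ.zero]

theorem tr_nonneg (i : W.J) : 0 ≤ W.tr P Γ i := by
  obtain ⟨b, hb⟩ := h.cov
  rw [h.tr_eq hb]
  rcases (hb _ (h.bas.η_mem b i)).2 with e | e
  · rw [e, Γ.zero]
  · exact e

theorem tr_zero_iff {i : W.J} (hi : i ≠ o) : W.tr P Γ i = 0 ↔ ¬W.Thru (lift P Γ) i := by
  obtain ⟨b, hb⟩ := h.cov
  rw [h.tr_eq hb, h.bas.thru_iff b _ i hb, not_not, un_lift]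
  exact ⟨fun e => ⟨h.η_F hb i, (pi_ne_iff (h.η_F hb i)).2 (h.η_un hb hi), e⟩, fun e => e.2.2⟩

theorem tr_pos_iff (i : W.J) : 0 < W.tr P Γ i ↔ i ≠ o ∧ W.Thru (lift P Γ) i := by
  by_cases hi : i = o
  · simp [hi, h.tr_o]
  have h1 := h.tr_zero_iff hi
  have h2 := h.tr_nonneg i
  refine ⟨fun e => ⟨hi, by_contra fun e' => e.ne' (h1.2 e')⟩, fun e => ?_⟩
  exact lt_of_le_of_ne h2 fun e' => h1.1 e'.symm e.2

theorem mon_un (hb : W.In b (lift P Γ)) (hc : c o = 0) : Un P.o.O (W.mon b c) :=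
  P.o.un_O.2 ⟨W.mon_ne b c, by rw [h.eq, h.bas.v_mon b o c (h.in_o hb), hc]⟩

theorem v_mon (hb : W.In b (lift P Γ)) (hc : c o = 0) :
    Γ.v (P.π (W.mon b c)) = ∑ i, c i * W.tr P Γ i := by
  have h1 : ∀ i, Un P.o.O (W.η b i ^ c i) := fun i => by
    by_cases hi : i = o
    · rw [hi, hc, zpow_zero]; exact un_one
    · exact (h.η_un hb hi).zpow _
  rw [W.mon_eq, pi_prod _ fun i _ => (h1 i).2.1,
    Γ.prod _ fun i _ => (pi_ne_iff (h1 i).2.1).2 (h1 i)]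
  refine sum_congr rfl fun i _ => ?_
  by_cases hi : i = o
  · rw [hi, hc, zpow_zero, P.π_one, Γ.one, zero_mul]
  · have h2 := h.η_un hb hi
    rw [Pl.π_zpow h2.1 (P.o.un_O.1 h2).2, Γ.zpow, h.tr_eq hb]

theorem oc_iff (hc : c o = 0) :
    W.Oc (lift P Γ) c g ↔ g ∈ P.o.F 0 ∧ P.π g ∈ Γ.F (-∑ i, c i * W.tr P Γ i) := by
  obtain ⟨b, hb⟩ := h.cov
  have h1 := h.mon_un hb hc
  have h2 := (pi_ne_iff h1.2.1).2 h1
  rw [h.bas.oc_iff b _ c g hb, mem_lift, ← h.v_mon hb hc]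
  refine (and_congr_left' (h1.mem_iff (g := g))).trans (and_congr_right fun hg => ?_)
  rw [P.mul g hg _ h1.2.1]
  by_cases h0 : P.π g = 0
  · simp [h0]
  simp only [DV.mem_F, mul_eq_zero, h0, h2, false_or, Γ.mul _ _ h0 h2]
  omega

theorem gen_iff (hc : c o = 0) : W.Gen (lift P Γ) c g ↔
    g ∈ P.o.F 0 ∧ P.π g ≠ 0 ∧ Γ.v (P.π g) = -∑ i, c i * W.tr P Γ i := by
  obtain ⟨b, hb⟩ := h.cov
  have h1 := h.mon_un hb hc
  have h2 := (pi_ne_iff h1.2.1).2 h1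
  rw [h.bas.gen_iff b _ c g hb, un_lift, ← h.v_mon hb hc]
  refine (and_congr_left' (h1.mem_iff (g := g))).trans (and_congr_right fun hg => ?_)
  rw [P.mul g hg _ h1.2.1, mul_ne_zero_iff_right h2]
  refine and_congr_right fun h0 => ?_
  rw [Γ.mul _ _ h0 h2]
  omega

theorem H_F (hc : c o = 0) (hg : g ∈ W.H c) :
    g ∈ P.o.F 0 ∧ P.π g ∈ Γ.F (-∑ i, c i * W.tr P Γ i) := (h.oc_iff hc).1 (hg _ h.ov)

open Classical in
theorem gns_iff {T : Finset (KK N)} (hT : W.Gens c T) (hc : c o = 0) (hg : g ∈ T) :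
    GnS (T.image P.π) Γ (P.π g) ↔ W.Gen (lift P Γ) c g := by
  have h1 := h.H_F hc (hT.1 g hg)
  rw [h.gen_iff hc]
  refine ⟨fun e => ⟨h1.1, e.2.1, le_antisymm ?_ (h1.2.resolve_left e.2.1)⟩, fun e =>
    ⟨mem_image_of_mem _ hg, e.2.1, fun s hs => ?_⟩⟩
  · obtain ⟨t, ht, h2⟩ := hT.2 _ h.ov
    obtain ⟨-, h3, h4⟩ := (h.gen_iff hc).1 h2
    have h5 := (e.2.2 _ (mem_image_of_mem _ ht)).resolve_left (div_ne_zero h3 e.2.1)
    rw [Γ.div h3 e.2.1] at h5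
    omega
  · obtain ⟨t, ht, rfl⟩ := mem_image.1 hs
    simpa [e.2.2] using F_div (h.H_F hc (hT.1 t ht)).2 (P.π g)

open Classical in
theorem dg {T : Finset (KK N)} (hT : W.Gens c T) (hc : c o = 0) :
    Dg (T.image P.π) Γ (∑ i, (c i : ℚ) * W.tr P Γ i) := by
  obtain ⟨t, ht, h2⟩ := hT.2 _ h.ov
  refine ⟨_, (h.gns_iff hT hc ht).2 h2, ?_⟩
  rw [((h.gen_iff hc).1 h2).2.2]
  push_cast
  rfl

/-- The ratio of two sections. -/
theorem pi_ratio (hc : c o = 0) {s : KK N} (hg : g ∈ W.H c) (hs : W.Gen (lift P Γ) c s) :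
    g / s ∈ lift P Γ ∧ P.π (g / s) = P.π g / P.π s := by
  obtain ⟨h1, h2, h3⟩ := (h.gen_iff hc).1 hs
  have h4 := (pi_ne_iff h1).1 h2
  obtain ⟨h5, h6⟩ := h.H_F hc hg
  have h7 := Pl.π_div h5 h4.1 (P.o.un_O.1 h4).2
  refine ⟨⟨by simpa [(P.o.un_O.1 h4).2] using F_div h5 s, ?_⟩, h7⟩
  rw [h7]
  simpa [h3] using F_div h6 (P.π s)

end Lv

theorem lv_of {f : Po N} {W : Mod N} (hW : W.OK f) (hB : Bas1 W) {o : W.J} (e : P.o = W.v o)
    (hx : ∀ l, P.π (xx N l) ∈ Γ.F 0) : Lv W o P Γ :=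
  ⟨hB, e, hW.cov _ ((ov_lift (e ▸ hB.ov_v o)).2 hx)⟩

end Pool.Agent.MP_ee8c61_ag.N3
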