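import Pool.Agent.MP_ee8c61_ag.N3.Mod

/-! Every finitely generated algebra that contains the polynomials is a base. -/

namespace Pool.Agent.MP_ee8c61_ag.N3

open M3

theorem trdeg_KK (N : ℕ) : Algebra.trdeg ℂ (KK N) = N := by
  have : Algebra.IsAlgebraic (M3.Po N) (KK N) := IsLocalization.isAlgebraic _ (nonZeroDivisors _)
  rw [← trdeg_add_eq ℂ (M3.Po N), trdeg_eq_zero (R := M3.Po N), MvPolynomial.trdeg_of_isDomain]
  simp

theorem exists_noether {N : ℕ} (A : Subalgebra ℂ (KK N)) (hA : A.FG) :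
    ∃ y : Fin N → KK N, (∀ l, y l ∈ A) ∧ ∀ V : Vl N, (∀ c, algebraMap ℂ (KK N) c ∈ V) →
      (∀ l, y l ∈ V) → ∀ g ∈ A, g ∈ V := by
  have : Algebra.FiniteType ℂ A := (Subalgebra.fg_iff_finiteType _).1 hA
  obtain ⟨s, φ, g1, g2⟩ := exists_integral_inj_algHom_of_fg ℂ A
  have hs : s ≤ N := by
    have h1 := trdeg_le_of_injective (A.val.comp φ) (Subtype.val_injective.comp g1)
    rw [trdeg_KK, MvPolynomial.trdeg_of_isDomain] at h1
    simpa using h1
  refine ⟨fun l => if h : l.1 < s then φ (MvPolynomial.X ⟨l, h⟩) else 0, fun l => ?_,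
    fun V h1 h2 g hg => ?_⟩
  · dsimp only
    split_ifs
    exacts [Subtype.prop _, zero_mem _]
  have h3 : ∀ p, (A.val.comp φ).toRingHom p ∈ V.toSubring := fun p => by
    show (A.val.comp φ) p ∈ V
    induction p using MvPolynomial.induction_on with
    | C c => exact (A.val.comp φ).commutes c ▸ h1 c
    | add p q hp hq => rw [map_add]; exact add_mem hp hq
    | mul_X p l hp =>
      rw [map_mul]
      refine mul_mem hp ?_
      simpa using h2 ⟨l, l.2.trans_le hs⟩
  obtain ⟨p, hp, e⟩ := g2 ⟨g, hg⟩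
  let ψ : MvPolynomial (Fin s) ℂ →+* V := (A.val.comp φ).toRingHom.codRestrict V.toSubring h3
  obtain ⟨y, hy⟩ := IsIntegrallyClosed.isIntegral_iff.1
    (⟨p.map ψ, hp.map ψ, by
      rw [Polynomial.eval₂_map]
      have := congrArg A.val.toRingHom e
      rw [Polynomial.hom_eval₂, map_zero] at this
      exact this⟩ : IsIntegral V g)
  exact hy ▸ y.2

theorem exists_base {N : ℕ} (A : Subalgebra ℂ (KK N)) (hA : A.FG) (hp : ∀ p, M3.ip N p ∈ A) :
    ∃ _ : Base, (∀ l, xx N l ∈ A) ∧ ∀ V : Vl N, Ov V ↔ ∀ g ∈ A, g ∈ V := by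
  obtain ⟨y, h1, h2⟩ := exists_noether A hA
  let B : Base := ⟨Function.update x0 N y, fun n V a1 a2 p => by
    by_cases e : n = N
    · subst e
      rw [Function.update_self] at a2
      exact h2 V a1 a2 _ (hp p)
    · rw [Function.update_of_ne e] at a2
      induction p using MvPolynomial.induction_on with
      | C c => exact (M3.ip n).commutes c ▸ a1 c
      | add p q hp hq => rw [map_add]; exact add_mem hp hq
      | mul_X p l hp => rw [map_mul]; exact mul_mem hp (a2 l)⟩
  have e : xx N = y := by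
    show Function.update x0 N y N = y
    rw [Function.update_self]
  refine ⟨B, e ▸ h1, fun V => ov_iff.trans ?_⟩
  rw [e]
  exact ⟨fun h => h2 V h.1 h.2, fun h => ⟨fun c => h _ (A.algebraMap_mem c), fun l => h _ (h1 l)⟩⟩

end Pool.Agent.MP_ee8c61_ag.N3
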