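import Pool.Agent.MP_ee8c61_ag.N3.FKit

/-! The traces of divisors on a surface are compatible with pull-back. -/

namespace Pool.Agent.MP_ee8c61_ag.N3

open Pool.Agent.MP_ee8c61_ag.M3

set_option linter.unusedSectionVars false

variable [Base]

open M3RESID M3E Finset

variable {N : ℕ} {k : Type} [Field k] [Algebra ℂ k] {P : Pl (KK N) k} {Γ : DV k}
  {W M : Mod N} (D : Dom W M) {o : M.J}

/-- The centre on a higher model. -/
theorem Lv.up {f : Po N} (h : Lv M o P Γ) (hW : W.OK f) (hB : Bas1 W) : Lv W (D.e o) P Γ :=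
  ⟨hB, h.eq.trans (D.v o).symm, hW.cov _ h.ov⟩

/-- The centre on a lower model. -/
theorem Lv.down {f : Po N} (h : Lv W (D.e o) P Γ) (hM : M.OK f) (hB : Bas1 M) : Lv M o P Γ :=
  ⟨hB, h.eq.trans (D.v o), hM.cov _ h.ov⟩

/-- The trace of one divisor. -/
theorem tr_ref (hM : Lv M o P Γ) (hW : Lv W (D.e o) P Γ) {j : M.J} (hj : j ≠ o) :
    M.tr P Γ j = ∑ i, (D.m i j : ℤ) * W.tr P Γ i := by
  obtain ⟨a, ha⟩ := hM.cov
  obtain ⟨b, hb⟩ := hW.cov
  have h1 := D.mon a b _ ha hb j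
  have h2 := hM.η_un ha hj
  have h3 := W.mon_ne b fun i => (D.m i j : ℤ)
  have h4 := (P.o.un_O.1 (h1.mono lift_le)).2
  rw [P.o.div h2.1 h3, (P.o.un_O.1 h2).2, hW.eq, hW.bas.v_mon b _ _ (hW.in_o hb)] at h4
  have h5 : (D.m (D.e o) j : ℤ) = 0 := by omega
  have h6 := hW.mon_un (c := fun i => (D.m i j : ℤ)) hb h5
  obtain ⟨-, -, h7⟩ := un_lift.1 h1
  rw [Pl.π_div h2.2.1 h3 (P.o.un_O.1 h6).2, Γ.div ((pi_ne_iff h2.2.1).2 h2)
    ((pi_ne_iff h6.2.1).2 h6), hW.v_mon (c := fun i => (D.m i j : ℤ)) hb h5,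
    ← hM.tr_eq ha] at h7
  omega

/-- The trace of a divisor that does not contain the surface. -/
theorem tr_pb {R : Type} [CommRing R] (hM : Lv M o P Γ) (hW : Lv W (D.e o) P Γ) {y : M.J → R}
    (hy : y o = 0) : ∑ i, D.pb y i * (W.tr P Γ i : R) = ∑ j, y j * (M.tr P Γ j : R) := by
  simp only [Dom.pb, sum_mul]
  rw [sum_comm]
  refine sum_congr rfl fun j _ => ?_
  by_cases hj : j = o
  · simp [hj, hy]
  rw [tr_ref D hM hW hj]
  push_cast
  rw [mul_sum]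
  exact sum_congr rfl fun i _ => by ring

end Pool.Agent.MP_ee8c61_ag.N3
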