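import Pool.Agent.MP_ee8c61_ag.N3.Top
import Pool.Agent.MP_ee8c61_ag.N3.RIT
import Pool.Agent.MP_ee8c61_ag.N3.MkBase
import Pool.Agent.MP_ee8c61_ag.N3E.Final
import Pool.Agent.MP_ee8c61_ag.N3L.Final
import Pool.Agent.MP_ee8c61_ag.N3L.R1
import Pool.Agent.MP_ee8c61_ag.N3K.Asm
import Pool.Agent.MP_ee8c61_ag.N3CH.Asm
import Pool.Agent.MP_ee8c61_ag.N3CH.RIAS
import Pool.Agent.MP_ee8c61_ag.N3CH.RISem
import Pool.Agent.MP_ee8c61_ag.N3FG.Asm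
import Pool.Agent.MP_ee8c61_ag.N3S4.Asm
import Pool.Agent.MP_ee8c61_ag.N3CP.Asm
import Pool.Agent.MP_ee8c61_ag.M3S.All
import Pool.Agent.MP_ee8c61_ag.M3F.LF
import Pool.Agent.MP_ee8c61_ag.M3J.Fin
import Pool.Agent.MP_ee8c61_ag.N3RESID.U3
import Pool.Agent.MP_ee8c61_ag.N3RESID.RCC
import Pool.Agent.MP_ee8c61_ag.N3I44.Sgn
import Pool.Agent.MP_ee8c61_ag.N3I44.Rows
import Pool.Agent.MP_ee8c61_ag.N3K.IPen
import Pool.Agent.MP_ee8c61_ag.N3KV.IKvl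
import Pool.Agent.MP_ee8c61_ag.N3Z.IZ
import Pool.Agent.MP_ee8c61_ag.N3BK.RAd
import Pool.Agent.MP_ee8c61_ag.N3BK.RBook
import Pool.Agent.MP_ee8c61_ag.N3BK.RCht
import Pool.Agent.MP_ee8c61_ag.N3BK.RCross
import Pool.Agent.MP_ee8c61_ag.N3BK.RPt
import Pool.Agent.MP_ee8c61_ag.N3BK.RSrf
import Pool.Agent.MP_ee8c61_ag.N3BK.RSurf
import Pool.Agent.MP_ee8c61_ag.N3BK.RUp
import Pool.Agent.MP_ee8c61_ag.M3BK.RBkl
import Pool.Agent.MP_ee8c61_ag.M3BK.RCmp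
import Pool.Agent.MP_ee8c61_ag.M3BK.RCrv
import Pool.Agent.MP_ee8c61_ag.M3BK.RCur
import Pool.Agent.MP_ee8c61_ag.M3BK.RDls
import Pool.Agent.MP_ee8c61_ag.M3BK.RFl
import Pool.Agent.MP_ee8c61_ag.M3BK.RIntA
import Pool.Agent.MP_ee8c61_ag.M3BK.RIntB
import Pool.Agent.MP_ee8c61_ag.M3BK.RLau
import Pool.Agent.MP_ee8c61_ag.M3BK.RM0
import Pool.Agent.MP_ee8c61_ag.M3BK.RNrm
import Pool.Agent.MP_ee8c61_ag.M3BK.RP1
import Pool.Agent.MP_ee8c61_ag.M3BK.RPol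
import Pool.Agent.MP_ee8c61_ag.M3BK.RPos
import Pool.Agent.MP_ee8c61_ag.M3BK.RRg
import Pool.Agent.MP_ee8c61_ag.M3BK.RTh
import Pool.Agent.MP_ee8c61_ag.M3BK.RType
import Pool.Agent.MP_ee8c61_ag.M3BK.RXc

/-! The assembly of all blocks. -/

namespace Pool.Agent.MP_ee8c61_ag.N3

section

variable [Base]

open M3E (eout)

theorem frows : FRows :=
  have K := M3K.kout_of eout
  have vol := rowIVol
  have kvl := M3KV.ikvl_of eout K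
  ⟨M3F.lf1, M3F.lf2, M3F.lf3, M3J.lvc_of M3S.thmKVN, M3J.lvz_of M3S.thmKVN, M3F.lmx,
    rowIAV, M3CH.rIAS eout, vol, M3CH.rISem eout, M3I44.inul_of eout K.ka,
    M3I44.ibig_of eout K.ka K.bir, M3I44.ismall_of eout K.ka K.wall, M3I44.rowSgn eout vol, kvl,
    M3K.ipen_of eout K vol kvl, rowICC eout, M3Z.rowZ0 eout vol,
    it1_of eout K.th K.ka K.kb K.up, it2_of eout⟩

theorem sch : SCH :=
  M3CH.ch_of (M3FG.sbox eout (M3S4.s4_of eout.bas (M3CP.cmp_of eout M3S.thmFnd) M3S.thmDESC))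
    eout.bas eout.h eout.aq eout.dc eout.b1

open M3BK in
theorem sbook : SBOOK :=
  have hO := MP_ee8c61_ag.M3L.scon
  have hX := MP_ee8c61_ag.M3L.ofChi hO
  have A := rIntA hO hX
  have B := rIntB hO hX A
  have Ex := rExc rNrm
  have Cu := rCur rP1
  have Pl := rPl rNrm rCrv rFl Cu rP1
  have Pt := BK.rPt eout
  have Sf := BK.rSurf eout hO
  BK.rBook eout hO hX A B rPol Pt Sf BK.rAd (BK.rSrf eout Pt) (BK.rCht eout hO hX)
    (BK.rUp eout Pt Sf BK.rAd)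
    (rBkl hO A B rLau rNrm rCrv rPos (rType rNrm rCrv rFl)
      (rCmp hO A B rNrm Ex (rDls hO hX A B rNrm rCrv rFl Ex)) (rM0 hO hX A B rNrm) rFl rP1
      (rRg_of rPl hO hX A B rNrm rCrv rFl Cu rP1) Pl (rXc (rCre' rNrm) rP1 (rTh rP1) (rSum rP1)))
    (BK.rCross eout rFl rP1 (rTh rP1) (rSum rP1) Pl BK.rAd)

theorem mainB : MainB :=
  top sch (M3L.sr1 eout) (sdeath_of frows) (slast_of frows (M3L.sr1 eout)) sbook

end

theorem mainI_of_bs (sbsi : SBSI) : MainI :=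
  mainI_of (fun A h1 h2 => exists_base A h1 h2) sbsi fun _ => mainB

end Pool.Agent.MP_ee8c61_ag.N3
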