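import Pool.Agent.MP_ee8c61_ag.N3.Tw
import Pool.Agent.MP_ee8c61_ag.N3L.Final
import Pool.Agent.MP_ee8c61_ag.H95G.BS
import Pool.Agent.MP_ee8c61_ag.H95G.BS2
import Pool.Agent.MP_ee8c61_ag.H95G.PHI

/-! The functional equation over the charts of the blow-up. -/

namespace Pool.Agent.MP_ee8c61_ag.N3

open H59 hiding pd
open M3 MvPolynomial
open M3B1 (pd)
open M3L (aw le_aw inv_mem_aw)

theorem sbsi : SBSI := by
  intro r F b j u B hb hF hu _ ⟨h1, h2⟩
  have e0 : ∀ p : M3.Po 3, aeval (x0 3) p = M3.ip 3 p := fun p =>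
    DFunLike.congr_fun (algHom_ext fun i => aeval_X _ i : aeval (x0 3) = M3.ip 3) p
  have hne : aeval (x0 3) (F j) ≠ 0 := by rw [e0]; exact M3B1.ip_ne hF
  have hA : aw (A0 F j) u ≤ Rb 3 := fun g hg => mem_Rb.2 fun V hV => (h2 V).1 hV g hg
  obtain ⟨n, β, Q, h3, h4, h5⟩ := H95G.rowBS (H95G.rowBS2 H95G.rowPHI) (KK 3) 3 r (x0 3) F b j
    (pd 3) (Rb 3) hb M3B1.pd_X hne (fun l => (pp 3 (X l)).2)
    fun i => by rw [e0, e0]; exact hA (le_aw (rat_mem i))
  simp only [e0] at h3 h5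
  rw [A0, Algebra.adjoin_range_eq_range_aeval] at hu
  obtain ⟨u, rfl⟩ := hu
  set y : Fin (3 + r) → KK 3 := Fin.append (x0 3) fun i => M3.ip 3 (F i) / M3.ip 3 (F j) with hy
  obtain ⟨D, hD, hR⟩ := N3Tw.exists_ring y u
  have e1 : (aeval fun o : Option (Fin (3 + r)) => o.elim (aeval y u)⁻¹ y).range =
      aw (A0 F j) (aeval y u) := by
    rw [← Algebra.adjoin_range_eq_range_aeval, aw, A0, ← Algebra.adjoin_union, ← hy]
    congr 1
    ext g
    simp only [Set.mem_range, Option.exists, Option.elim_none, Option.elim_some, Set.mem_union,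
      Set.mem_singleton_iff, or_comm, eq_comm]
  choose p hp using fun l => (e1.ge (h1 l) : xx 3 l ∈ _)
  obtain ⟨T, t1, t2, t3, t4⟩ := N3Tw.twist _ D hD y p
  have t5 := t4 (Rb 3) (e1.le.trans hA)
  have t6 : ∀ c H, T (C c * H) = C c * T H := fun c H => by
    rw [← smul_eq_C_mul, map_smul, smul_eq_C_mul]
  have t7 : ∀ q : Polynomial ℂ, T (Polynomial.aeval (X none) q) = Polynomial.aeval (X none) q :=
    fun q => by
      induction q using Polynomial.induction_on with
      | C a =>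
        rw [Polynomial.aeval_C, Polynomial.aeval_C, MvPolynomial.algebraMap_apply,
          MvPolynomial.algebraMap_apply, ← mul_one (C _), t6, t1, mul_one]
      | add p q hp hq => simp only [map_add, hp, hq]
      | monomial n a h =>
        rw [pow_succ, ← mul_assoc, map_mul (Polynomial.aeval _), map_mul (Polynomial.aeval _) (_ * _),
          Polynomial.aeval_X, Polynomial.aeval_X, mul_comm, t2, h, mul_comm]
  have rg : ∀ g ∈ Rb 3, g ∈ (ip 3).range := fun g hg => ⟨⟨g, hg⟩, rfl⟩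
  refine ⟨fun l => T (β l), T Q, ⟨n, fun l e => rg _ ?_⟩, fun e => rg _ (t5 Q h4 e), ?_⟩
  · have := t5 (C (M3.ip 3 (F j) ^ n) * β l) (fun e => by rw [coeff_C_mul]; exact h3 l e) e
    rwa [t6, coeff_C_mul] at this
  · rw [← t7, h5, map_add, t6, map_sum]
    refine congrArg _ (Finset.sum_congr rfl fun l _ => ?_)
    rw [add_mul, ← add_assoc, map_add, t3 _ (hR _), mul_assoc, t2, t6, add_mul, ← add_assoc,
      mul_assoc]
    simp only [← hp]
    rfl

end Pool.Agent.MP_ee8c61_ag.N3
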