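import Pool.Agent.MP_ee8c61_ag.N3.Defs
import Pool.Agent.MP_ee8c61_ag.M3.FDefs

/-!
The surface datum of a divisor in a chamber: everything is read on the divisorial valuations of
the residue field.
-/

namespace Pool.Agent.MP_ee8c61_ag.N3

open Pool.Agent.MP_ee8c61_ag.M3

set_option linter.unusedSectionVars false

variable [Base]

open M3RESID M3F Finset

noncomputable section

open Classical in
/-- The order along `Γ` of the trace of the divisor `i`; it is `0` for the divisor of `P`. -/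
def Mod.tr {N : ℕ} (W : Mod N) {k : Type} [Field k] [Algebra ℂ k] (P : Pl (KK N) k) (Γ : DV k)
    (i : W.J) : ℤ :=
  if h : ∃ b, W.In b (lift P Γ) then Γ.v (P.π (W.η h.choose i)) else 0

/-- Two divisors meet along a curve that is not complete. -/
def Mod.NCp {N : ℕ} (M : Mod N) (o j : M.J) : Prop :=
  ∃ V, Ov V ∧ M.Thru V o ∧ M.Thru V j ∧ ∃ l, ∀ c : ℂ, Un V (xx N l - algebraMap ℂ (KK N) c)

namespace Ch

variable {f : Po 3} {M : Mod 3} (C : Ch f M)

/-- The ample direction, normalised at `o`. -/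
def hp (o : M.J) : M.J → ℚ := C.h - (C.h o / M.a o) • M.q M.aa

/-- The point of the segment, normalised at `o`. -/
def pt (la : ℚ) (o : M.J) (t : ℚ) : M.J → ℚ := M.ex la + t • C.hp o

/-- The other alive divisors. -/
def Nb (o : M.J) : Type := {j : M.J // j ≠ o ∧ C.Alive j}

instance (o : M.J) : Fintype (C.Nb o) := by
  classical
  exact Subtype.fintype _

/-- The residue of the volume form and of the primitive. -/
structure AV (o : M.J) where
  Co : Co (M.v o).kf 2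
  q : ℕ
  ψ : (M.v o).kf
  d : Dv (M.v o).kf
  v : VF (M.v o).kf

/-- Generators of the semiample divisors. -/
structure AS (o : M.J) where
  t1 : ℚ
  ε : ℚ
  m : ℕ
  c0 : C.W.J → ℤ
  c1 : C.W.J → ℤ
  cj : M.J → C.W.J → ℤ
  T0 : Finset (KK 3)
  T1 : Finset (KK 3)
  Tj : M.J → Finset (KK 3)

structure AV.OK {o : M.J} (X : AV (M := M) o) (f : Po 3) (la : ℚ) (β : Fin 3 → H59.PX 3 (KK 3)) :
    Prop where
  fin : FiniteDimensional (IntermediateField.adjoin ℂ (Set.range X.Co.z)) (M.v o).kf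
  q0 : 0 < X.q
  ψ0 : X.ψ ≠ 0
  rat : ∀ Y, X.d.δ Y = X.Co.dv.δ Y + Y X.ψ / (X.q * X.ψ)
  rd : (M.v o).pl.RsD (dvf f la) X.d
  rv : (M.v o).pl.Res (dvf f la) (bf la β) X.v

variable {C} in
structure AS.OK {o : M.J} (X : C.AS o) (la : ℚ) : Prop where
  t1 : C.t < X.t1
  inn : Inn C.U (M.nu + X.t1 • C.h)
  ε : 0 < X.ε
  inj : ∀ j, Inn C.U (M.nu + X.t1 • C.h + X.ε • M.q (M.e j))
  m : 0 < X.m
  c0 : C.W.q X.c0 = X.m • C.P (C.pt la o C.t)
  c1 : C.W.q X.c1 = X.m • C.P (C.pt la o X.t1)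
  cj : ∀ j, C.W.q (X.cj j) = X.m • C.P (C.pt la o X.t1 + X.ε • M.q (M.e j))
  T0 : C.W.Gens X.c0 X.T0
  T1 : C.W.Gens X.c1 X.T1
  Tj : ∀ j, C.W.Gens (X.cj j) (X.Tj j)

open Classical in
/-- The surface datum of the divisor `o`. -/
def sd (la : ℚ) (b : Polynomial ℂ) (o : M.J) (X : AV (M := M) o) (Y : C.AS o) : SD (M.v o).kf where
  A := C.Nb o
  fA := inferInstance
  x l := (M.v o).pl.π (xx 3 l)
  C := X.Co
  q := X.q
  ψ := X.ψ
  d := X.d
  v := X.v
  b := b.eval (-(la : ℂ))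
  al j := M.ex la j.1
  h j := C.hp o j.1
  β j Γ := ∑ i, C.P (M.q (M.e j.1)) i * C.W.tr (M.v o).pl Γ i
  ex Γ := Classical.epsilon fun a : ℚ => Exp X.d Γ a
  t0 := C.t
  t1 := Y.t1
  ε := Y.ε
  m := Y.m
  S0 := Y.T0.image (M.v o).pl.π
  S1 := Y.T1.image (M.v o).pl.π
  Sj j := (Y.Tj j.1).image (M.v o).pl.π

end Ch

end

end Pool.Agent.MP_ee8c61_ag.N3
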