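import Pool.Agent.MP_ee8c61_ag.N3.Fin1
import Pool.Agent.MP_ee8c61_ag.N3.RBS

/-! The theorem for ideals in three variables. -/

namespace Pool.Agent.MP_ee8c61_ag.N3

theorem mainI : MainI := mainI_of_bs sbsi

end Pool.Agent.MP_ee8c61_ag.N3
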