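import Pool.Agent.MP_ee8c61_ag.N3.Mod

/-!
Small lemmas on monomials and pull-backs.
-/

namespace Pool.Agent.MP_ee8c61_ag.N3

open H59 M3 Finset

variable {N : ℕ}

namespace Mod

variable (M : Mod N)

theorem η_ne (b : M.ι) (j : M.J) : M.η b j ≠ 0 := Units.ne_zero _

theorem mon_ne (b : M.ι) (c : M.J → ℤ) : M.mon b c ≠ 0 := Units.ne_zero _

theorem mon_eq (b : M.ι) (c : M.J → ℤ) : M.mon b c = ∏ j, M.η b j ^ c j := by
  simp [mon, η, Sys.mon]

@[simp] theorem q_apply (c : M.J → ℤ) (j : M.J) : M.q c j = c j := rfl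

theorem q_inj : Function.Injective M.q := fun _ _ h =>
  funext fun j => Int.cast_injective (α := ℚ) (congrFun h j)

theorem q_add (c c' : M.J → ℤ) : M.q (c + c') = M.q c + M.q c' := funext fun _ => by simp

theorem q_sub (c c' : M.J → ℤ) : M.q (c - c') = M.q c - M.q c' := funext fun _ => by simp

theorem q_neg (c : M.J → ℤ) : M.q (-c) = -M.q c := funext fun _ => by simp

theorem q_zero : M.q 0 = 0 := funext fun _ => by simp

theorem q_nsmul (r : ℕ) (c : M.J → ℤ) : M.q (r • c) = r • M.q c := funext fun _ => by simp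

theorem q_zsmul (r : ℤ) (c : M.J → ℤ) : M.q (r • c) = (r : ℚ) • M.q c := funext fun _ => by simp

theorem up_q (c : M.J → ℤ) : M.up (M.q c) = c := funext fun _ => by simp [up]

theorem e_apply (i j : M.J) : M.e i j = if j = i then 1 else 0 := Pi.single_apply _ _ _

end Mod

namespace Dom

variable {W M : Mod N} (D : Dom W M) {R : Type} [CommRing R]

theorem pb_add (c c' : M.J → R) : D.pb (c + c') = D.pb c + D.pb c' :=
  funext fun _ => by simp [pb, mul_add, sum_add_distrib]

theorem pb_sub (c c' : M.J → R) : D.pb (c - c') = D.pb c - D.pb c' :=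
  funext fun _ => by simp [pb, mul_sub, sum_sub_distrib]

theorem pb_neg (c : M.J → R) : D.pb (-c) = -D.pb c := funext fun _ => by simp [pb]

theorem pb_zero : D.pb (0 : M.J → R) = 0 := funext fun _ => by simp [pb]

theorem pb_smul (t : R) (c : M.J → R) : D.pb (t • c) = t • D.pb c :=
  funext fun _ => by simp [pb, mul_sum, mul_left_comm]

theorem pb_nsmul (t : ℕ) (c : M.J → R) : D.pb (t • c) = t • D.pb c :=
  funext fun _ => by simp [pb, mul_sum, mul_left_comm]

theorem pb_mono [LinearOrder R] [IsStrictOrderedRing R] {c c' : M.J → R} (h : c ≤ c') :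
    D.pb c ≤ D.pb c' := fun _ =>
  sum_le_sum fun j _ => mul_le_mul_of_nonneg_left (h j) (Nat.cast_nonneg _)

theorem q_pb (c : M.J → ℤ) : W.q (D.pb c) = D.pb (M.q c) := funext fun _ => by simp [pb]

theorem pb_e (j : M.J) (i : W.J) : D.pb (M.e j) i = D.m i j := by
  simp [pb, Mod.e_apply]

end Dom

end Pool.Agent.MP_ee8c61_ag.N3
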