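import Pool.Agent.MP_ee8c61_ag.M3E.Kit

/-!
Projective log resolutions over an affine base as systems of charts in the field of rational
functions. Points are valuation rings.
-/

namespace Pool.Agent.MP_ee8c61_ag.N3

open H59 M3 Finset

noncomputable section

/-- Functions over whose algebra all polynomials are integral. -/
class Base where
  x : ∀ N, Fin N → KK N
  int : ∀ N (V : Vl N), (∀ c, algebraMap ℂ (KK N) c ∈ V) → (∀ l, x N l ∈ V) →
    ∀ p, M3.ip N p ∈ V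

/-- The polynomial coordinates. -/
def x0 (N : ℕ) (l : Fin N) : KK N := M3.ip N (MvPolynomial.X l)

variable [Base]

/-- The generators of the base. -/
def xx (N : ℕ) (l : Fin N) : KK N := Base.x N l

/-- The normal base ring. -/
def Rb (N : ℕ) : Subalgebra ℂ (KK N) where
  carrier := {g | ∀ V : Vl N, (∀ c, algebraMap ℂ (KK N) c ∈ V) → (∀ l, xx N l ∈ V) → g ∈ V}
  mul_mem' := fun a b V h1 h2 => mul_mem (a V h1 h2) (b V h1 h2)
  add_mem' := fun a b V h1 h2 => add_mem (a V h1 h2) (b V h1 h2)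
  algebraMap_mem' := fun c _ h1 _ => h1 c

abbrev Po (N : ℕ) : Type := Rb N

abbrev ip (N : ℕ) : Po N →ₐ[ℂ] KK N := (Rb N).val

/-- Polynomials as elements of the base ring. -/
def pp (N : ℕ) : M3.Po N →ₐ[ℂ] Po N := (M3.ip N).codRestrict _ fun p V h1 h2 => Base.int N V h1 h2 p

/-- The generators as elements of the base ring. -/
def xp (N : ℕ) (l : Fin N) : Po N := ⟨xx N l, fun _ _ h => h l⟩

/-- Where `f` does not vanish the base is an open part of affine space. -/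
def Gd {N : ℕ} (f : Po N) : Prop := f ≠ 0 ∧ ∃ q : M3.Po N, q ≠ 0 ∧
  (∀ l, ∃ (n : ℕ) (p : M3.Po N), M3.ip N q ^ n * xx N l = M3.ip N p) ∧
  ∃ (n : ℕ) (p : Po N), f ^ n = p * pp N q

variable {N : ℕ}

/-- `V` contains the base ring. -/
def Ov (V : Vl N) : Prop := ∀ p, ip N p ∈ V

/-- Charts, orders of the polynomial and of the Jacobian, valuations of the divisors. -/
structure Mod (N : ℕ) where
  ι : Type
  J : Type
  fι : Fintype ι
  fJ : Fintype J
  dJ : DecidableEq J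
  S : Sys ℂ (KK N) ι J N
  a : J → ℕ
  k : J → ℕ
  v : J → DV (KK N)

attribute [instance] Mod.fι Mod.fJ Mod.dJ

namespace Mod

variable (M : Mod N)

/-- The equation of the divisor `j` in the chart `b`. -/
abbrev η (b : M.ι) (j : M.J) : KK N := (M.S.η b j : KK N)

/-- The monomial with exponents `c` in the chart `b`. -/
abbrev mon (b : M.ι) (c : M.J → ℤ) : KK N := (M.S.mon b c : KK N)

/-- The centre of `V` lies in the chart `b`. -/
def In (b : M.ι) (V : Vl N) : Prop := ∀ g ∈ M.S.A b, g ∈ V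

/-- `g` is a section of the divisor `c` along `V`. -/
def Oc (V : Vl N) (c : M.J → ℤ) (g : KK N) : Prop := ∀ b, M.In b V → g * M.mon b c ∈ V

/-- `g` generates the sheaf of the divisor `c` along `V`. -/
def Gen (V : Vl N) (c : M.J → ℤ) (g : KK N) : Prop := ∀ b, M.In b V → Un V (g * M.mon b c)

/-- The global sections of the divisor `c`. -/
def H (c : M.J → ℤ) : Set (KK N) := {g | ∀ V, Ov V → M.Oc V c g}

/-- Representatives of the sections of the restriction of `c` to the divisor `o`. -/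
def R (o : M.J) (c : M.J → ℤ) : Set (KK N) := {s | ∀ V, Ov V → V ≤ (M.v o).O → M.Oc V c s}

/-- The section `s` on the divisor `o` is the restriction of a global section. -/
def Lf (o : M.J) (c : M.J → ℤ) (s : KK N) : Prop := ∃ g ∈ M.H c, s - g ∈ (M.v o).F (1 - c o)

/-- The sections in `T` generate everywhere. -/
def Gens (c : M.J → ℤ) (T : Finset (KK N)) : Prop :=
  (∀ g ∈ T, g ∈ M.H c) ∧ ∀ V, Ov V → ∃ g ∈ T, M.Gen V c g

def Free (c : M.J → ℤ) : Prop := ∃ T, M.Gens c T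

/-- The sections in `U` generate everywhere on the divisor `o`. -/
def Bpf (o : M.J) (c : M.J → ℤ) (U : Finset (KK N)) : Prop :=
  (∀ u ∈ U, u ∈ M.R o c) ∧ ∀ V, Ov V → V ≤ (M.v o).O → ∃ u ∈ U, M.Gen V c u

/-- The section `ρ i` of `w` generates exactly on the part of the chart `b i` where `t i` is
invertible, and these sets cover. -/
structure AC (w : M.J → ℤ) {κ : Type} (b : κ → M.ι) (t ρ : κ → KK N) : Prop where
  mem : ∀ i, t i ∈ M.S.A (b i)
  ne : ∀ i, t i ≠ 0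
  sec : ∀ i, ρ i ∈ M.H w
  cov : ∀ V, Ov V → ∃ i, M.Gen V w (ρ i)
  gen : ∀ i V, Ov V → (M.Gen V w (ρ i) ↔ M.In (b i) V ∧ (t i)⁻¹ ∈ V)

def Amp (w : M.J → ℤ) : Prop :=
  ∃ (κ : Type) (_ : Fintype κ) (b : κ → M.ι) (t ρ : κ → KK N), M.AC w b t ρ

/-- The integral vector `c` as a rational vector. -/
def q (c : M.J → ℤ) : M.J → ℚ := fun j => c j

/-- The round-up. -/
def up (A : M.J → ℚ) : M.J → ℤ := fun j => ⌈A j⌉

/-- The basis vector. -/
def e (j : M.J) : M.J → ℤ := Pi.single j 1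

/-- The canonical divisor. -/
def kk : M.J → ℤ := fun j => M.k j

/-- The divisor of the polynomial. -/
def aa : M.J → ℤ := fun j => M.a j

def AmpQ (A : M.J → ℚ) : Prop := ∃ (μ : ℕ) (w : M.J → ℤ), 0 < μ ∧ M.Amp w ∧ M.q w = μ • A

def SemiQ (A : M.J → ℚ) : Prop := ∃ (μ : ℕ) (w : M.J → ℤ), 0 < μ ∧ M.Free w ∧ M.q w = μ • A

/-- `M` is a projective log resolution of `f`. -/
structure OK (f : Po N) : Prop where
  r : M.S.r = x0 N
  et : ∀ b, (M.S.zh b).toRingHom.Etale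
  pol : ∀ b p, ip N p ∈ M.S.A b
  ord : ∀ b, ∃ U : (KK N)ˣ, M.S.IsU b U ∧ ip N f = U * M.mon b M.aa
  det : ∀ b, ∃ U : (KK N)ˣ, M.S.IsU b U ∧
    (Matrix.of fun l i => M.S.D b i (M.S.r l)).det = U * M.mon b M.kk
  pos : ∀ j, 0 < M.a j
  cov : ∀ V, Ov V → ∃ b, M.In b V
  dv : ∀ b j, (M.η b j)⁻¹ ∉ M.S.A b → M.In b (M.v j).O ∧ (M.v j).v (M.η b j) = 1 ∧
    ∀ g ∈ M.S.A b, g ∈ (M.v j).F 1 → g * (M.η b j)⁻¹ ∈ M.S.A b
  ne : ∀ j, ∃ b, (M.η b j)⁻¹ ∉ M.S.A b
  inj : ∀ j j', (M.v j).O = (M.v j').O → j = j'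
  amp : ∃ w, M.Amp w
  gd : Gd f

/-- The divisor `j` passes through the centre of `V`. -/
def Thru (V : Vl N) (j : M.J) : Prop := ∀ b, M.In b V → ¬Un V (M.η b j)

/-- `V` refines the valuation of the divisor `o` and its centre is a component of the
intersection of the divisors `o` and `j`. -/
def IsCv (o j : M.J) (V : Vl N) : Prop :=
  j ≠ o ∧ Ov V ∧ V ≤ (M.v o).O ∧ M.Thru V j ∧ ∀ b, M.In b V → ∀ g ∈ M.S.A b, ¬Un V g →
    ∃ s ∈ M.S.A b, ∃ h ∈ M.S.A b, ∃ h' ∈ M.S.A b, Un V s ∧ s * g = h * M.η b o + h' * M.η b j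

end Mod

/-- The model `W` dominates the model `M`. -/
structure Dom (W M : Mod N) where
  e : M.J → W.J
  m : W.J → M.J → ℕ
  v : ∀ j, W.v (e j) = M.v j
  mon : ∀ a b V, M.In a V → W.In b V → ∀ j, Un V (M.η a j / W.mon b fun i => m i j)
  loc : ∀ b V, W.In b V → ∃ a, ∀ g ∈ M.S.A a, Lc (W.S.A b) V g

namespace Dom

variable {W M : Mod N} (D : Dom W M)

/-- The pull-back of divisors. -/
def pb {R : Type} [CommRing R] (c : M.J → R) : W.J → R := fun i => ∑ j, (D.m i j : R) * c j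

/-- The push-forward of divisors. -/
def pf {R : Type} (c : W.J → R) : M.J → R := fun j => c (D.e j)

end Dom

/-! ### The base ring -/

theorem ip_pp (p : M3.Po N) : ip N (pp N p) = M3.ip N p := rfl

theorem ip_xp (l : Fin N) : ip N (xp N l) = xx N l := rfl

theorem ov_iff {V : Vl N} : Ov V ↔ (∀ c, algebraMap ℂ (KK N) c ∈ V) ∧ ∀ l, xx N l ∈ V :=
  ⟨fun h => ⟨fun c => h (algebraMap ℂ _ c), fun l => h (xp N l)⟩, fun h p => p.2 V h.1 h.2⟩

theorem mem_Rb {g : KK N} : g ∈ Rb N ↔ ∀ V, Ov V → g ∈ V :=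
  ⟨fun h _ hV => hV ⟨g, h⟩, fun h V h1 h2 => h V (ov_iff.2 ⟨h1, h2⟩)⟩

theorem Ov.pol {V : Vl N} (h : Ov V) (p : M3.Po N) : M3.ip N p ∈ V := h (pp N p)

instance : IsFractionRing (Po N) (KK N) := IsFractionRing.of_field _ _ fun g => by
  obtain ⟨p, q, -, rfl⟩ := IsFractionRing.div_surjective (A := M3.Po N) g
  exact ⟨pp N p, pp N q, rfl⟩

instance : IsIntegrallyClosed (Po N) := (isIntegrallyClosed_iff (KK N)).2 fun {g} hg =>
  ⟨⟨g, mem_Rb.2 fun V hV => by
    obtain ⟨p, hp, e⟩ := hg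
    let φ : Po N →+* V := (ip N).toRingHom.codRestrict V.toSubring hV
    obtain ⟨y, hy⟩ := IsIntegrallyClosed.isIntegral_iff.1
      (⟨p.map φ, hp.map φ, by rw [Polynomial.eval₂_map]; exact e⟩ : IsIntegral V g)
    exact hy ▸ y.2⟩, rfl⟩

theorem Mod.OK.pol0 {M : Mod N} {f : Po N} (h : M.OK f) (b : M.ι) (p : M3.Po N) :
    M3.ip N p ∈ M.S.A b := h.pol b (pp N p)

theorem Mod.OK.x0_mem {M : Mod N} {f : Po N} (h : M.OK f) (b : M.ι) (l : Fin N) :
    x0 N l ∈ M.S.A b := h.pol0 b _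

theorem Mod.OK.xx_mem {M : Mod N} {f : Po N} (h : M.OK f) (b : M.ι) (l : Fin N) :
    xx N l ∈ M.S.A b := h.pol b (xp N l)

end

end Pool.Agent.MP_ee8c61_ag.N3
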