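import Pool.Agent.MP_ee8c61_ag.N3.Defs
import Pool.Agent.MP_ee8c61_ag.M3.Top

/-! The theorem over one base from the statements of the blocks. -/

namespace Pool.Agent.MP_ee8c61_ag.N3

open Pool.Agent.MP_ee8c61_ag.M3

variable [Base]

theorem top (hCH : SCH) (hR1 : SR1) (hD : SDEATH) (hL : SLAST) (hBK : SBOOK) : MainB := by
  intro f b β Q M χ₀ hbs hM hχ₀ s hs
  have hf := hM.gd.1
  obtain ⟨j, hj⟩ : ∃ j, (M.a j : ℂ) * s + M.k j + 1 = 0 := by
    by_contra! hn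
    exact (show M.zeta χ₀ ∈ regAt s from sum_mem fun I _ =>
      mul_mem (intCast_mem _ _) (prod_mem fun i _ => lin_mem (hn i))) hs
  have ha : (M.a j : ℂ) ≠ 0 := Nat.cast_ne_zero.2 (hM.pos j).ne'
  obtain rfl : s = -(((M.k j + 1) / M.a j : ℚ) : ℂ) := by
    push_cast
    field_simp
    linear_combination hj
  by_contra hn
  have H : Hyp f ((M.k j + 1) / M.a j) b β Q := ⟨hf, hbs, hn⟩
  refine hBK f _ b β Q M χ₀ H hM hχ₀ (fun o ho => ?_) hs
  obtain ⟨C, hA, hC | hC⟩ := hCH f M hf hM o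
  · exact hD f _ b β Q M o C H hM ho hA hC
  · refine hL f _ b β Q M o C H hM ho hA hC ⟨-1, by rw [hC]; norm_num, ?_⟩
    intro s _ h2 m c hm hc g hg
    by_contra h3
    exact hn (hR1 3 f _ b β Q M o C.h s m c hf hbs hM ho C.amp (hC ▸ h2) hm hc g hg h3)

end Pool.Agent.MP_ee8c61_ag.N3
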