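import Pool.Agent.MP_ee8c61_ag.H59.RTh

/-! Change of the functions in the exponential twist. -/

namespace Pool.Agent.MP_ee8c61_ag.N3Tw

open H59 H59.ThX MvPolynomial Finset

theorem exists_pow {M ι : Type} [Monoid M] [Fintype ι] [DecidableEq ι] (d : ι → M)
    (h : ∀ i k, Commute (d i) (d k)) :
    ∃ Ψ : (ι → ℕ) → M, Ψ 0 = 1 ∧ ∀ e i, Ψ (Pi.single i 1 + e) = d i * Ψ e := by
  let Φ := MonoidHom.noncommPiCoprod (fun i => powersHom M (d i))
    fun i k _ a c => (h i k).pow_pow _ _
  refine ⟨fun e => Φ fun i => Multiplicative.ofAdd (e i), map_one Φ, fun e i => ?_⟩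
  have h1 : Φ (Pi.mulSingle i (Multiplicative.ofAdd 1)) = d i :=
    (MonoidHom.noncommPiCoprod_mulSingle _ i _).trans (by simp)
  rw [← h1, ← map_mul]
  refine congrArg Φ (funext fun k => ?_)
  by_cases e : k = i <;> simp [e, Pi.mulSingle_apply, Pi.single_apply, ofAdd_add]

variable {K B : Type} [Field K] [Algebra ℂ K] [CommRing B] [Algebra ℂ B] {m n : ℕ}

theorem twist (φ : B →ₐ[ℂ] K) (D : Fin m → Derivation ℂ B B)
    (hD : ∀ i k q, D i (D k q) = D k (D i q)) (y : Fin m → K) (p : Fin n → B) :
    ∃ T : PX m K →ₗ[K] PX n K, T 1 = 1 ∧ (∀ H, T (X none * H) = X none * T H) ∧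
      (∀ R : Derivation ℂ K K, (∀ q, R (φ q) = ∑ i, R (y i) * φ (D i q)) → ∀ H,
        T (dpol _ R H + (∑ i, X (some i) * C (R (y i))) * H) =
          dpol _ R (T H) + (∑ j, X (some j) * C (R (φ (p j)))) * T H) ∧
      ∀ A : Subalgebra ℂ K, φ.range ≤ A → ∀ H ∈ spol _ A, T H ∈ spol _ A := by
  classical
  let θ : Fin m → PX n B := fun i => ∑ j, X (some j) * C (D i (p j))
  let d : Option (Fin m) → Module.End ℂ (PX n B) := fun o => o.elim
    (LinearMap.mulLeft ℂ (X none)) fun i => (dpol _ (D i)).toLinearMap + LinearMap.mulLeft ℂ (θ i)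
  have d0 : ∀ G, d none G = X none * G := fun G => rfl
  have d1 : ∀ i G, d (some i) G = dpol _ (D i) G + θ i * G := fun i G => rfl
  have c1 : ∀ i, Commute (d none) (d (some i)) := fun i => LinearMap.ext fun G => by
    simp only [Module.End.mul_apply, d0, d1, Derivation.leibniz, dpol_X, smul_eq_mul]
    ring
  have c2 : ∀ i k, Commute (d (some i)) (d (some k)) := fun i k => LinearMap.ext fun G => by
    have e1 : dpol _ (D i) (dpol _ (D k) G) = dpol _ (D k) (dpol _ (D i) G) := by
      ext e
      simp only [coeff_dpol, hD i k]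
    have e2 : dpol _ (D i) (θ k) = dpol _ (D k) (θ i) := by
      simp only [θ, map_sum, dpol_XC, hD i k]
    simp only [Module.End.mul_apply, d1, map_add, Derivation.leibniz, smul_eq_mul, e1, e2]
    ring
  obtain ⟨Ψ, h0, h1⟩ := exists_pow d fun o o' => by
    cases o <;> cases o'
    exacts [Commute.refl _, c1 _, (c1 _).symm, c2 _ _]
  let τ : (Option (Fin m) →₀ ℕ) → PX n K := fun e => map (φ : B →+* K) (Ψ e 1)
  let T : PX m K →ₗ[K] PX n K := (basisMonomials _ K).constr K τ
  have t1 : ∀ e c, T (monomial e c) = C c * τ e := fun e c => by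
    rw [← mul_one c, ← smul_eq_mul, ← smul_monomial, map_smul, smul_eq_mul, mul_one,
      ← smul_eq_C_mul]
    exact congrArg _ ((basisMonomials _ K).constr_basis K τ e)
  have t2 : ∀ o e c, T (X o * monomial e c) = C c * map (φ : B →+* K) (d o (Ψ e 1)) :=
    fun o e c => by
      rw [X, monomial_mul, one_mul, t1]
      simp only [τ, Finsupp.coe_add, Finsupp.single_eq_pi_single, h1, Module.End.mul_apply]
  refine ⟨T, ?_, fun H => ?_, fun R hR H => ?_, fun A hA H hH => ?_⟩
  · rw [← C_1, C_apply, t1]
    simp [τ, h0]
  · induction H using MvPolynomial.induction_on' with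
    | monomial e c =>
      rw [t2, t1, d0, map_mul, map_X]
      ring
    | add P Q hP hQ => simp only [mul_add, map_add, hP, hQ]
  · induction H using MvPolynomial.induction_on' with
    | monomial e c =>
      have e1 : dpol _ R (monomial e c) = monomial e (R c) := by
        ext e'
        simp only [coeff_dpol, coeff_monomial]
        split_ifs <;> simp
      have e2 : ∀ G : PX n B, dpol _ R (map (φ : B →+* K) G) =
          ∑ i, C (R (y i)) * map (φ : B →+* K) (dpol _ (D i) G) := fun G => by
        ext e'
        simp only [coeff_dpol, coeff_map, coeff_sum, coeff_C_mul, RingHom.coe_coe, hR]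
      have e3 : (∑ j, X (some j) * C (R (φ (p j))) : PX n K) =
          ∑ i, C (R (y i)) * map (φ : B →+* K) (θ i) := by
        simp only [θ, map_sum, map_mul, map_X, map_C, hR, mul_sum, RingHom.coe_coe]
        rw [sum_comm]
        exact sum_congr rfl fun _ _ => sum_congr rfl fun _ _ => by ring
      have e4 : ∀ i, T (X (some i) * C (R (y i)) * monomial e c) = C (R (y i)) *
          (C c * map (φ : B →+* K) (d (some i) (Ψ e 1))) := fun i => by
        rw [← t2, mul_comm (X _), mul_assoc, ← smul_eq_C_mul, map_smul, smul_eq_C_mul]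
      rw [map_add, e1, sum_mul, map_sum, t1, t1, Derivation.leibniz, dpol_C, e3]
      simp only [e4, d1, map_add, map_mul, τ, e2, smul_eq_mul, mul_add, sum_add_distrib, mul_sum,
        sum_mul]
      rw [add_comm (∑ _, _) (_ * C _), add_assoc, mul_comm (C (R c))]
      congr 2 <;> exact sum_congr rfl fun _ _ => by ring
    | add P Q hP hQ =>
      rw [map_add (dpol _ R), map_add T P, map_add (dpol _ R), mul_add, mul_add, add_add_add_comm,
        map_add, hP, hQ, add_add_add_comm]
  · rw [H.as_sum, map_sum]
    refine sum_mem fun e _ => ?_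
    rw [t1]
    exact mul_mem (C_mem_spol (hH e)) fun e' => by
      rw [coeff_map]
      exact hA ⟨_, rfl⟩

theorem chain {σ : Type} (v : σ → K) (D : Fin m → Derivation ℂ (MvPolynomial σ ℂ) (MvPolynomial σ ℂ))
    (R : Derivation ℂ K K) (c : Fin m → K) (h : ∀ o, R (v o) = ∑ i, c i * aeval v (D i (X o)))
    (q : MvPolynomial σ ℂ) : R (aeval v q) = ∑ i, c i * aeval v (D i q) := by
  induction q using MvPolynomial.induction_on with
  | C a => simp [← algebraMap_eq]
  | add p q hp hq => simp only [map_add, hp, hq, mul_add, sum_add_distrib]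
  | mul_X p o hp =>
    simp only [map_mul, aeval_X, Derivation.leibniz, smul_eq_mul, hp, h o, map_add, mul_add,
      sum_add_distrib, mul_sum]
    congr 1 <;> exact sum_congr rfl fun _ _ => by ring

/-- The ring of functions with denominators a power of `u`. -/
theorem exists_ring (y : Fin m → K) (u : MvPolynomial (Fin m) ℂ) :
    ∃ D : Fin m → Derivation ℂ (MvPolynomial (Option (Fin m)) ℂ) (MvPolynomial (Option (Fin m)) ℂ),
      (∀ i k q, D i (D k q) = D k (D i q)) ∧ ∀ (R : Derivation ℂ K K) q,
        R (aeval (fun o => o.elim (aeval y u)⁻¹ y) q) =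
          ∑ i, R (y i) * aeval (fun o => o.elim (aeval y u)⁻¹ y) (D i q) := by
  classical
  let D : Fin m → Derivation ℂ (MvPolynomial (Option (Fin m)) ℂ) (MvPolynomial (Option (Fin m)) ℂ) :=
    fun i => mkDerivation ℂ fun o => o.elim (-(X none ^ 2) * rename some (pderiv i u))
      fun k => if k = i then 1 else 0
  have d0 : ∀ i, D i (X none) = -(X none ^ 2) * rename some (pderiv i u) := fun i =>
    mkDerivation_X _ _ _
  have d1 : ∀ i k, D i (X (some k)) = if k = i then 1 else 0 := fun i k => mkDerivation_X _ _ _
  have d2 : ∀ i p, D i (rename some p) = rename some (pderiv i p) := fun i p => by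
    induction p using MvPolynomial.induction_on with
    | C a => simp [← algebraMap_eq]
    | add p q hp hq => simp only [map_add, hp, hq]
    | mul_X p k hp =>
      simp only [map_mul, rename_X, Derivation.leibniz, smul_eq_mul, hp, d1, map_add, pderiv_X,
        Pi.single_apply]
      split_ifs <;> simp
  refine ⟨D, fun i k q => ?_, fun R => chain _ D R _ fun o => ?_⟩
  · have : ⁅D i, D k⁆ = 0 := derivation_ext fun o => by
      rw [Derivation.commutator_apply]
      cases o with
      | none =>
        have e : pderiv i (pderiv k u) = pderiv k (pderiv i u) := by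
          have : ⁅(pderiv i : Derivation ℂ (MvPolynomial (Fin m) ℂ) _), pderiv k⁆ = 0 :=
            derivation_ext fun l => by
              rw [Derivation.commutator_apply]
              simp only [pderiv_X, Pi.single_apply]
              split_ifs <;> simp
          exact sub_eq_zero.1 ((Derivation.commutator_apply _).symm.trans
            (DFunLike.congr_fun this u))
        simp only [d0, Derivation.leibniz, map_neg, Derivation.leibniz_pow, d2, e, smul_eq_mul,
          Derivation.zero_apply, nsmul_eq_mul]
        ring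
      | some l =>
        simp only [d1]
        split_ifs <;> simp
    exact sub_eq_zero.1 ((Derivation.commutator_apply _).symm.trans (DFunLike.congr_fun this q))
  · cases o with
    | none =>
      have := chain y (fun i => pderiv i) R (fun i => R (y i)) (fun l => by
        simp [pderiv_X, Pi.single_apply]) u
      have e : (fun o : Option (Fin m) => o.elim (aeval y u)⁻¹ y) ∘ some = y := rfl
      simp only [d0, map_mul, map_neg, map_pow, aeval_X, aeval_rename, e, Option.elim_none,
        Derivation.leibniz_inv, this, smul_eq_mul, mul_sum]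
      exact sum_congr rfl fun _ _ => by ring
    | some l => simp [d1]

end Pool.Agent.MP_ee8c61_ag.N3Tw
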